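import Pool.Agent.K6.H14.PE.Stm

/-!
# Certificates modulo `p ^ 2`
-/

set_option autoImplicit false

namespace Pool.Agent.K6.H14.PE

/-- there are certificates for the prime `p` -/
def HasCert (p : ℕ) : Prop := ∃ (n : ℕ) (τ : ℤ) (A : ℕ → ℤ) (n' M : ℕ) (B E : ℕ → ℤ),
  CertA p n τ A ∧ CertB p n' M τ B E

/-- sequences given by lists -/
def lst (l : List ℤ) (j : ℕ) : ℤ := l.getD j 0

theorem cert7 : HasCert 7 :=
  ⟨2, 1, lst [1, 3, -12, -7],
    0, 1, lst [-1, -1],
    lst [0, 1], by
      unfold CertA lst; decide +kernel, by unfold CertB lst; decide +kernel⟩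

theorem cert13 : HasCert 13 :=
  ⟨1, 1, lst [1, 3, -52],
    0, 1, lst [-1, -1],
    lst [0, 1], by
      unfold CertA lst; decide +kernel, by unfold CertB lst; decide +kernel⟩

theorem cert19 : HasCert 19 :=
  ⟨3, 221, lst [1, -138, 117, 85, -38],
    2, 4, lst [-1, -142, -71, -150, -71],
    lst [0, 1, -2, -7, -9], by
      unfold CertA lst; decide +kernel, by unfold CertB lst; decide +kernel⟩

theorem cert23 : HasCert 23 :=
  ⟨2, 81, lst [1, 83, 215, -46],
    0, 3, lst [-1, 79, 6, -1],
    lst [0, 1, -1, -7], by
      unfold CertA lst; decide +kernel, by unfold CertB lst; decide +kernel⟩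

theorem cert29 : HasCert 29 :=
  ⟨3, 422, lst [1, -417, -235, 119, -406],
    0, 2, lst [-1, 420, -1],
    lst [0, 1, -2], by
      unfold CertA lst; decide +kernel, by unfold CertB lst; decide +kernel⟩

theorem cert31 : HasCert 31 :=
  ⟨2, 1, lst [1, 3, -316, -93],
    0, 1, lst [-1, -1],
    lst [0, 1], by
      unfold CertA lst; decide +kernel, by unfold CertB lst; decide +kernel⟩

theorem cert37 : HasCert 37 :=
  ⟨1, 686, lst [1, -681, 592],
    0, 2, lst [-1, 684, -1],
    lst [0, 1, -2], by
      unfold CertA lst; decide +kernel, by unfold CertB lst; decide +kernel⟩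

theorem cert41 : HasCert 41 :=
  ⟨5, 538, lst [1, 540, 141, -84, 474, 668, -246],
    2, 4, lst [-1, 536, 268, -806, 268],
    lst [0, 1, 11, -2, 17], by
      unfold CertA lst; decide +kernel, by unfold CertB lst; decide +kernel⟩

theorem cert43 : HasCert 43 :=
  ⟨5, 1, lst [1, 3, -612, -753, 407, -596, 860],
    0, 1, lst [-1, -1],
    lst [0, 1], by
      unfold CertA lst; decide +kernel, by unfold CertB lst; decide +kernel⟩

theorem cert47 : HasCert 47 :=
  ⟨2, 81, lst [1, 83, 510, -141],
    6, 7, lst [-1, 79, -567, 1049, -681, -81, -300, -300],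
    lst [0, 1, -12, 6, 17, -3, -17, -10], by
      unfold CertA lst; decide +kernel, by unfold CertB lst; decide +kernel⟩

theorem cert53 : HasCert 53 :=
  ⟨2, 1987, lst [1, -820, -652, -901],
    3, 5, lst [-1, -824, -279, 1265, -443, 1265],
    lst [0, 1, -13, 17, 9, -5], by
      unfold CertA lst; decide +kernel, by unfold CertB lst; decide +kernel⟩

theorem cert59 : HasCert 59 :=
  ⟨2, 1162, lst [1, 1164, 744, 1003],
    3, 4, lst [-1, 1160, -1162, -1393, -1393],
    lst [0, 1, -7, -20, -29], by
      unfold CertA lst; decide +kernel, by unfold CertB lst; decide +kernel⟩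

theorem cert61 : HasCert 61 :=
  ⟨1, 980, lst [1, 982, 488],
    10, 11, lst [-1, 978, -146, -109, -119, 48, -910, 851, 82, -980, 991, 991],
    lst [0, 1, 17, -12, 23, -26, 8, 16, 22, 4, 20, 6], by
      unfold CertA lst; decide +kernel, by unfold CertB lst; decide +kernel⟩

theorem cert67 : HasCert 67 :=
  ⟨3, 1395, lst [1, 1397, 668, 1895, 201],
    5, 6, lst [-1, 1393, -586, 1215, -1395, -1580, -1580],
    lst [0, 1, 29, -32, 0, 1, -8], by
      unfold CertA lst; decide +kernel, by unfold CertB lst; decide +kernel⟩

theorem cert73 : HasCert 73 :=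
  ⟨1, 85, lst [1, 87, -73],
    4, 5, lst [-1, 83, -2657, -85, -2257, -2257],
    lst [0, 1, 29, 35, 17, -21], by
      unfold CertA lst; decide +kernel, by unfold CertB lst; decide +kernel⟩

theorem cert79 : HasCert 79 :=
  ⟨4, 2533, lst [1, 2535, 1705, 2093, 2491, 632],
    0, 5, lst [-1, 2531, -2151, -825, -100, -1],
    lst [0, 1, 37, -16, 17, -15], by
      unfold CertA lst; decide +kernel, by unfold CertB lst; decide +kernel⟩

theorem cert83 : HasCert 83 :=
  ⟨2, 957, lst [1, 959, -2, -2490],
    2, 8, lst [-1, 955, -1904, -1146, 2991, 1320, 1395, 3073, -1904],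
    lst [0, 1, -2, 19, 41, 19, 21, 19, 36], by
      unfold CertA lst; decide +kernel, by unfold CertB lst; decide +kernel⟩

theorem cert89 : HasCert 89 :=
  ⟨1, 2018, lst [1, 2020, -1691],
    0, 8, lst [-1, 2016, -1062, 2306, 2555, -1770, 1058, -3430, -1],
    lst [0, 1, 7, 35, -16, 34, 40, 5, -38], by
      unfold CertA lst; decide +kernel, by unfold CertB lst; decide +kernel⟩

theorem cert97 : HasCert 97 :=
  ⟨1, 4035, lst [1, 4037, -3395],
    11, 12, lst [-1, 4033, 1013, -1751, 2730, -4674, 595, 2511, 382, 747, -4035, -2614, -2614],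
    lst [0, 1, 5, -11, 37, -29, -33, 21, 9, 34, 30, -40, -18], by
      unfold CertA lst; decide +kernel, by unfold CertB lst; decide +kernel⟩

theorem cert101 : HasCert 101 :=
  ⟨1, 9538, lst [1, -661, -2929],
    2, 8, lst [-1, -665, 2599, -1412, -1721, 2186, 1537, 3927, 2599],
    lst [0, 1, -41, -6, 47, -37, 45, -24, -6], by
      unfold CertA lst; decide +kernel, by unfold CertB lst; decide +kernel⟩

theorem cert103 : HasCert 103 :=
  ⟨8, 1, lst [1, 3, -3532, 4630, -1920, 1004, -4458, -1399, -1489, -1545],
    0, 1, lst [-1, -1],
    lst [0, 1], by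
      unfold CertA lst; decide +kernel, by unfold CertB lst; decide +kernel⟩

theorem cert107 : HasCert 107 :=
  ⟨3, 5726, lst [1, -5721, 4912, -4524, 749],
    0, 2, lst [-1, 5724, -1],
    lst [0, 1, -2], by
      unfold CertA lst; decide +kernel, by unfold CertB lst; decide +kernel⟩

theorem cert109 : HasCert 109 :=
  ⟨1, 9934, lst [1, -1945, 3597],
    3, 6, lst [-1, -1949, 615, -3090, 5579, -1758, -3090],
    lst [0, 1, -18, 23, 7, -13, 32], by
      unfold CertA lst; decide +kernel, by unfold CertB lst; decide +kernel⟩

theorem cert113 : HasCert 113 :=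
  ⟨3, 6386, lst [1, -6381, -3643, -1053, 4181],
    0, 2, lst [-1, 6384, -1],
    lst [0, 1, -2], by
      unfold CertA lst; decide +kernel, by unfold CertB lst; decide +kernel⟩

theorem cert127 : HasCert 127 :=
  ⟨6, 13614, lst [1, -2513, -2281, -7285, -3127, 4055, -2891, -2159],
    5, 7, lst [-1, -2517, -6948, -7455, -6424, -3212, 5727, -3212],
    lst [0, 1, 8, -27, 7, 16, -55, 9], by
      unfold CertA lst; decide +kernel, by unfold CertB lst; decide +kernel⟩

theorem cert131 : HasCert 131 :=
  ⟨5, 14077, lst [1, -3082, 8094, -2574, 69, 6436, -6943],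
    3, 6, lst [-1, -3086, -3751, 5449, 573, -4877, 5449],
    lst [0, 1, -51, 0, 1, -62, -3], by
      unfold CertA lst; decide +kernel, by unfold CertB lst; decide +kernel⟩

theorem cert137 : HasCert 137 :=
  ⟨3, 145, lst [1, 147, -2900, 7788, 5617],
    0, 4, lst [-1, 143, -237, 5214, -1],
    lst [0, 1, 21, 43, -53], by
      unfold CertA lst; decide +kernel, by unfold CertB lst; decide +kernel⟩

theorem cert139 : HasCert 139 :=
  ⟨5, 14238, lst [1, -5081, -8700, 3275, -516, 729, 7228],
    6, 10, lst [-1, -5085, 7219, 854, -7419, -1374, -5093, 4255, -7621, 1364, -5093],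
    lst [0, 1, -3, -38, 18, -21, -2, -2, -48, 11, -24], by
      unfold CertA lst; decide +kernel, by unfold CertB lst; decide +kernel⟩

theorem cert149 : HasCert 149 :=
  ⟨4, 13686, lst [1, -8513, -9958, 7012, -493, 6258],
    2, 8, lst [-1, -8517, -2101, -345, 4718, -1863, -2930, -7270, -2101],
    lst [0, 1, -65, 29, -9, 73, -69, -43, -8], by
      unfold CertA lst; decide +kernel, by unfold CertB lst; decide +kernel⟩

theorem cert151 : HasCert 151 :=
  ⟨6, 9897, lst [1, 9899, -6771, 1119, -9727, 9973, 2915, -1510],
    0, 5, lst [-1, 9895, 10296, -6809, -1647, -1],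
    lst [0, 1, 15, -47, 49, 12], by
      unfold CertA lst; decide +kernel, by unfold CertB lst; decide +kernel⟩

theorem cert157 : HasCert 157 :=
  ⟨2, 23115, lst [1, -1532, -5045, -5338],
    0, 3, lst [-1, -1536, 5034, -1],
    lst [0, 1, 13, 28], by
      unfold CertA lst; decide +kernel, by unfold CertB lst; decide +kernel⟩

theorem cert163 : HasCert 163 :=
  ⟨8, 19772, lst [1, -6795, -1025, 706, -12451, -12283, -11360, 10117, -1155, -1304],
    2, 7, lst [-1, -6799, 11617, -5712, -1006, -5294, -1356, 11617],
    lst [0, 1, 69, 49, 49, -1, 40, 27], by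
      unfold CertA lst; decide +kernel, by unfold CertB lst; decide +kernel⟩

theorem cert167 : HasCert 167 :=
  ⟨10, 12779, lst [1, 12781, -5517, 9739, -5434, 5328, -11546, 6105, 13795, 10251, -11432, -9853],
    0, 4, lst [-1, 12777, 1286, -2959, -1],
    lst [0, 1, -17, 14, 41], by
      unfold CertA lst; decide +kernel, by unfold CertB lst; decide +kernel⟩

theorem cert173 : HasCert 173 :=
  ⟨1, 8349, lst [1, 8351, -3979],
    11, 12, lst [-1, 8347, 2852, -10805, -4924, 1948, -11105, -13849, 9820, -5570, -8349, 11887, 11887],
    lst [0, 1, -14, 10, -43, -85, -28, 38, -17, -34, 23, -40, -3], by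
      unfold CertA lst; decide +kernel, by unfold CertB lst; decide +kernel⟩

theorem cert179 : HasCert 179 :=
  ⟨5, 13818, lst [1, 13820, 3802, 12454, 15963, 10835, -4833],
    2, 4, lst [-1, 13816, 6908, 11315, 6908],
    lst [0, 1, -10, -66, 30], by
      unfold CertA lst; decide +kernel, by unfold CertB lst; decide +kernel⟩

theorem cert181 : HasCert 181 :=
  ⟨1, 29311, lst [1, -3448, -3620],
    7, 9, lst [-1, -3452, 14442, 1680, 14591, 2921, 43, -16359, -12952, -16359],
    lst [0, 1, -13, 30, -64, -72, 27, 83, 43, -4], by
      unfold CertA lst; decide +kernel, by unfold CertB lst; decide +kernel⟩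

theorem cert191 : HasCert 191 :=
  ⟨9, 33219, lst [1, -3260, -6287, -16222, 12560, 11154, -7104, -5431, -17647, -11904, 9550],
    12, 14, lst [-1, -3264, -77, 925, -11053, 15588, -11660, -6221, 3512, -4414, -9486, -330, -165, 3427, -165],
    lst [0, 1, 78, -74, 9, -82, 42, 92, -22, 12, -39, -69, 68, 9, -69], by
      unfold CertA lst; decide +kernel, by unfold CertB lst; decide +kernel⟩

theorem cert193 : HasCert 193 :=
  ⟨12, 3503, lst [1, 3505, 3671, 4617, 8596, 12112, 4885, 3058, -2465, 1174, -15407, -9085, 1876, -12352],
    3, 5, lst [-1, 3501, 7919, -14665, 11162, -14665],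
    lst [0, 1, 11, -58, -72, 12], by
      unfold CertA lst; decide +kernel, by unfold CertB lst; decide +kernel⟩

theorem cert197 : HasCert 197 :=
  ⟨5, 19406, lst [1, -19401, -11083, -18948, -8511, -17212, 14381],
    0, 2, lst [-1, 19404, -1],
    lst [0, 1, -2], by
      unfold CertA lst; decide +kernel, by unfold CertB lst; decide +kernel⟩

theorem cert199 : HasCert 199 :=
  ⟨2, 33560, lst [1, -6039, 19088, 597],
    15, 17, lst [-1, -6043, 1219, -3620, -6587, 12436, 18467, -13648, 5198, 16611, -13871, -6154, 8249, -15545, -7483, 16059, -10018, 16059],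
    lst [0, 1, 97, 59, -27, 87, -17, 11, 20, 3, 96, -38, 41, -45, -71, 83, 2, 58], by
      unfold CertA lst; decide +kernel, by unfold CertB lst; decide +kernel⟩

theorem cert_all (p : ℕ) (hp : p.Prime) (h7 : 7 ≤ p) (h200 : p < 200) (h11 : p ≠ 11) (h17 : p ≠ 17)
    (h71 : p ≠ 71) : HasCert p := by
  interval_cases p
  · exact cert7
  · exact absurd hp (by norm_num)
  · exact absurd hp (by norm_num)
  · exact absurd hp (by norm_num)
  · exact absurd rfl h11
  · exact absurd hp (by norm_num)
  · exact cert13
  · exact absurd hp (by norm_num)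
  · exact absurd hp (by norm_num)
  · exact absurd hp (by norm_num)
  · exact absurd rfl h17
  · exact absurd hp (by norm_num)
  · exact cert19
  · exact absurd hp (by norm_num)
  · exact absurd hp (by norm_num)
  · exact absurd hp (by norm_num)
  · exact cert23
  · exact absurd hp (by norm_num)
  · exact absurd hp (by norm_num)
  · exact absurd hp (by norm_num)
  · exact absurd hp (by norm_num)
  · exact absurd hp (by norm_num)
  · exact cert29
  · exact absurd hp (by norm_num)
  · exact cert31
  · exact absurd hp (by norm_num)
  · exact absurd hp (by norm_num)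
  · exact absurd hp (by norm_num)
  · exact absurd hp (by norm_num)
  · exact absurd hp (by norm_num)
  · exact cert37
  · exact absurd hp (by norm_num)
  · exact absurd hp (by norm_num)
  · exact absurd hp (by norm_num)
  · exact cert41
  · exact absurd hp (by norm_num)
  · exact cert43
  · exact absurd hp (by norm_num)
  · exact absurd hp (by norm_num)
  · exact absurd hp (by norm_num)
  · exact cert47
  · exact absurd hp (by norm_num)
  · exact absurd hp (by norm_num)
  · exact absurd hp (by norm_num)
  · exact absurd hp (by norm_num)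
  · exact absurd hp (by norm_num)
  · exact cert53
  · exact absurd hp (by norm_num)
  · exact absurd hp (by norm_num)
  · exact absurd hp (by norm_num)
  · exact absurd hp (by norm_num)
  · exact absurd hp (by norm_num)
  · exact cert59
  · exact absurd hp (by norm_num)
  · exact cert61
  · exact absurd hp (by norm_num)
  · exact absurd hp (by norm_num)
  · exact absurd hp (by norm_num)
  · exact absurd hp (by norm_num)
  · exact absurd hp (by norm_num)
  · exact cert67
  · exact absurd hp (by norm_num)
  · exact absurd hp (by norm_num)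
  · exact absurd hp (by norm_num)
  · exact absurd rfl h71
  · exact absurd hp (by norm_num)
  · exact cert73
  · exact absurd hp (by norm_num)
  · exact absurd hp (by norm_num)
  · exact absurd hp (by norm_num)
  · exact absurd hp (by norm_num)
  · exact absurd hp (by norm_num)
  · exact cert79
  · exact absurd hp (by norm_num)
  · exact absurd hp (by norm_num)
  · exact absurd hp (by norm_num)
  · exact cert83
  · exact absurd hp (by norm_num)
  · exact absurd hp (by norm_num)
  · exact absurd hp (by norm_num)
  · exact absurd hp (by norm_num)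
  · exact absurd hp (by norm_num)
  · exact cert89
  · exact absurd hp (by norm_num)
  · exact absurd hp (by norm_num)
  · exact absurd hp (by norm_num)
  · exact absurd hp (by norm_num)
  · exact absurd hp (by norm_num)
  · exact absurd hp (by norm_num)
  · exact absurd hp (by norm_num)
  · exact cert97
  · exact absurd hp (by norm_num)
  · exact absurd hp (by norm_num)
  · exact absurd hp (by norm_num)
  · exact cert101
  · exact absurd hp (by norm_num)
  · exact cert103
  · exact absurd hp (by norm_num)
  · exact absurd hp (by norm_num)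
  · exact absurd hp (by norm_num)
  · exact cert107
  · exact absurd hp (by norm_num)
  · exact cert109
  · exact absurd hp (by norm_num)
  · exact absurd hp (by norm_num)
  · exact absurd hp (by norm_num)
  · exact cert113
  · exact absurd hp (by norm_num)
  · exact absurd hp (by norm_num)
  · exact absurd hp (by norm_num)
  · exact absurd hp (by norm_num)
  · exact absurd hp (by norm_num)
  · exact absurd hp (by norm_num)
  · exact absurd hp (by norm_num)
  · exact absurd hp (by norm_num)
  · exact absurd hp (by norm_num)
  · exact absurd hp (by norm_num)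
  · exact absurd hp (by norm_num)
  · exact absurd hp (by norm_num)
  · exact absurd hp (by norm_num)
  · exact cert127
  · exact absurd hp (by norm_num)
  · exact absurd hp (by norm_num)
  · exact absurd hp (by norm_num)
  · exact cert131
  · exact absurd hp (by norm_num)
  · exact absurd hp (by norm_num)
  · exact absurd hp (by norm_num)
  · exact absurd hp (by norm_num)
  · exact absurd hp (by norm_num)
  · exact cert137
  · exact absurd hp (by norm_num)
  · exact cert139
  · exact absurd hp (by norm_num)
  · exact absurd hp (by norm_num)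
  · exact absurd hp (by norm_num)
  · exact absurd hp (by norm_num)
  · exact absurd hp (by norm_num)
  · exact absurd hp (by norm_num)
  · exact absurd hp (by norm_num)
  · exact absurd hp (by norm_num)
  · exact absurd hp (by norm_num)
  · exact cert149
  · exact absurd hp (by norm_num)
  · exact cert151
  · exact absurd hp (by norm_num)
  · exact absurd hp (by norm_num)
  · exact absurd hp (by norm_num)
  · exact absurd hp (by norm_num)
  · exact absurd hp (by norm_num)
  · exact cert157
  · exact absurd hp (by norm_num)
  · exact absurd hp (by norm_num)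
  · exact absurd hp (by norm_num)
  · exact absurd hp (by norm_num)
  · exact absurd hp (by norm_num)
  · exact cert163
  · exact absurd hp (by norm_num)
  · exact absurd hp (by norm_num)
  · exact absurd hp (by norm_num)
  · exact cert167
  · exact absurd hp (by norm_num)
  · exact absurd hp (by norm_num)
  · exact absurd hp (by norm_num)
  · exact absurd hp (by norm_num)
  · exact absurd hp (by norm_num)
  · exact cert173
  · exact absurd hp (by norm_num)
  · exact absurd hp (by norm_num)
  · exact absurd hp (by norm_num)
  · exact absurd hp (by norm_num)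
  · exact absurd hp (by norm_num)
  · exact cert179
  · exact absurd hp (by norm_num)
  · exact cert181
  · exact absurd hp (by norm_num)
  · exact absurd hp (by norm_num)
  · exact absurd hp (by norm_num)
  · exact absurd hp (by norm_num)
  · exact absurd hp (by norm_num)
  · exact absurd hp (by norm_num)
  · exact absurd hp (by norm_num)
  · exact absurd hp (by norm_num)
  · exact absurd hp (by norm_num)
  · exact cert191
  · exact absurd hp (by norm_num)
  · exact cert193
  · exact absurd hp (by norm_num)
  · exact absurd hp (by norm_num)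
  · exact absurd hp (by norm_num)
  · exact cert197
  · exact absurd hp (by norm_num)
  · exact cert199

end Pool.Agent.K6.H14.PE
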