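import Pool.Agent.K6.H14.PE.Stm

/-!
# Quadratic postcritically finite maps over `ℚ_p`, two parameters: the first passage
-/

set_option autoImplicit false

namespace Pool.Agent.K6.H14.PE

open Pool.Agent.Y955.PF

noncomputable section

namespace BAS

variable {p : ℕ} [Fact p.Prime]

theorem p_pos : 0 < (p : ℝ) := by exact_mod_cast (Fact.out : p.Prime).pos

theorem r_pos : 0 < (p : ℝ)⁻¹ := inv_pos.2 p_pos

theorem r_lt : (p : ℝ)⁻¹ < 1 := by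
  apply inv_lt_one_of_one_lt₀
  exact_mod_cast (Fact.out : p.Prime).one_lt

theorem norm_of_close {x y : ℚ_[p]} (h : ‖x - y‖ < ‖y‖) : ‖x‖ = ‖y‖ := by
  have h1 : x = (x - y) + y := by ring
  rw [h1, Padic.add_eq_max_of_ne h.ne]
  exact max_eq_right h.le

theorem add_le' {x y : ℚ_[p]} {r : ℝ} (hx : ‖x‖ ≤ r) (hy : ‖y‖ ≤ r) : ‖x + y‖ ≤ r :=
  (Padic.nonarchimedean x y).trans (max_le hx hy)

theorem curve_lip {τ₀ σ : ℚ_[p]} {t : ℚ_[p] → ℚ_[p]} (hC : Curve p τ₀ σ t) (k k' : ℚ_[p])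
    (hk : ‖k‖ ≤ (p : ℝ)⁻¹) (hk' : ‖k'‖ ≤ (p : ℝ)⁻¹) : ‖t k‖ ≤ 1 ∧ ‖t k - t k'‖ ≤ ‖k - k'‖ := by
  obtain ⟨hτ0, hσ, htc, htd, -⟩ := hC
  constructor
  · have h1 : t k = (t k - τ₀) + τ₀ := by ring
    rw [h1]
    exact add_le' ((htc k hk).trans r_lt.le) hτ0
  · have h1 : t k - t k' = (t k - t k' - σ * (k - k')) + σ * (k - k') := by ring
    rw [h1]
    refine add_le' ((htd k k' hk hk').trans ?_) ?_
    · calc (p : ℝ)⁻¹ * ‖k - k'‖ ≤ 1 * ‖k - k'‖ :=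
          mul_le_mul_of_nonneg_right r_lt.le (norm_nonneg _)
        _ = ‖k - k'‖ := one_mul _
    · rw [norm_mul]
      calc ‖σ‖ * ‖k - k'‖ ≤ 1 * ‖k - k'‖ := mul_le_mul_of_nonneg_right hσ (norm_nonneg _)
        _ = ‖k - k'‖ := one_mul _

theorem first (hE : S_EST) (hL : S_LNK) (hB1 : S_B1) {n : ℕ} {τ₀ σ : ℚ_[p]} {t : ℚ_[p] → ℚ_[p]}
    (hC : Curve p τ₀ σ t) (hA : CondA p n (t 0)) (c : ℚ_[p]) (hc : ‖c‖ = 1)
    (hcb : ‖c - (Dv (t 0) 1 (n + 1) * σ + Ev (t 0) 1 (n + 1))‖ = 1) :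
    St p t c p (2 * (n + 1) + 1) := by
  have hlip := curve_lip hC
  obtain ⟨hτ0, hσ, htc, htd, -⟩ := hC
  obtain ⟨hτ, hV, hV2, hVn⟩ := hA
  have h00 : ‖(0 : ℚ_[p])‖ ≤ (p : ℝ)⁻¹ := by rw [norm_zero]; exact r_pos.le
  have ht0 : ∀ k : ℚ_[p], ‖k‖ ≤ (p : ℝ)⁻¹ → ‖t k - t 0‖ ≤ (p : ℝ)⁻¹ := by
    intro k hk
    have := (hlip k 0 hk h00).2
    rw [sub_zero] at this
    exact this.trans hk
  have hest := hE p 1 (t 0) (n + 1) (by simp) hτ hV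
  obtain ⟨hD, hEv, -, hd⟩ := hest (n + 1) le_rfl
  obtain ⟨k₀, hk₀, hF, hball⟩ := hB1 p (fun k => V k (t k) 1 (n + 1)) t (V 0 (t 0) 1 (n + 1))
    (Dv (t 0) 1 (n + 1) * σ + Ev (t 0) 1 (n + 1)) c hVn (by
      refine add_le' ?_ hEv
      rw [norm_mul]
      exact mul_le_one₀ hD (norm_nonneg _) hσ) rfl (fun k k' hk hk' => by
      refine ⟨(hlip k k' hk hk').1, (hlip k k' hk hk').2, ?_⟩
      have h1 := hd (t k) (t k') k k' (ht0 k hk) (ht0 k' hk') hk hk'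
      have h2 := htd k k' hk hk'
      rw [max_eq_right (hlip k k' hk hk').2] at h1
      have e : V k (t k) 1 (n + 1) - V k' (t k') 1 (n + 1) -
          (Dv (t 0) 1 (n + 1) * σ + Ev (t 0) 1 (n + 1)) * (k - k') =
          (V k (t k) 1 (n + 1) - V k' (t k') 1 (n + 1) - Dv (t 0) 1 (n + 1) * (t k - t k') -
            Ev (t 0) 1 (n + 1) * (k - k')) + Dv (t 0) 1 (n + 1) * (t k - t k' - σ * (k - k')) := by
        ring
      rw [e]
      refine add_le' h1 ?_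
      rw [norm_mul]
      calc ‖Dv (t 0) 1 (n + 1)‖ * ‖t k - t k' - σ * (k - k')‖ ≤
          1 * ‖t k - t k' - σ * (k - k')‖ := mul_le_mul_of_nonneg_right hD (norm_nonneg _)
        _ = ‖t k - t k' - σ * (k - k')‖ := one_mul _
        _ ≤ _ := h2) hc hcb
  have hrr : (p : ℝ)⁻¹ * (p : ℝ)⁻¹ < (p : ℝ)⁻¹ := by
    calc (p : ℝ)⁻¹ * (p : ℝ)⁻¹ < (p : ℝ)⁻¹ * 1 := mul_lt_mul_of_pos_left (r_lt (p := p)) r_pos
      _ = (p : ℝ)⁻¹ := mul_one _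
  have hn : ∀ k : ℚ_[p], ‖k - k₀‖ ≤ (p : ℝ)⁻¹ * (p : ℝ)⁻¹ → ‖k‖ = (p : ℝ)⁻¹ := by
    intro k hk
    rw [← hk₀]
    apply norm_of_close
    rw [hk₀]
    exact hk.trans_lt hrr
  have hZ : ∀ k : ℚ_[p], ‖k - k₀‖ ≤ (p : ℝ)⁻¹ * (p : ℝ)⁻¹ →
      Z k (t k) 1 (2 * (n + 1) + 1) = F k (t k) (V k (t k) 1 (n + 1)) ∧
      ∀ i < 2 * (n + 1) + 1, Reg (t k) (Z k (t k) 1 i) := by
    intro k hk
    have hkn := hn k hk
    have hk0 : k ≠ 0 := norm_pos_iff.1 (by rw [hkn]; exact r_pos)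
    have hu := (hball k k hk hk).1
    change ‖V k (t k) 1 (n + 1)‖ = (p : ℝ)⁻¹ at hu
    have hu0 : V k (t k) 1 (n + 1) ≠ 0 := norm_pos_iff.1 (by rw [hu]; exact r_pos)
    have hunit : ∀ j < n + 1, ‖V k (t k) 1 j‖ = 1 := by
      intro j hj
      obtain ⟨hD', hE', -, hd'⟩ := hest j hj.le
      rw [← hV j hj]
      apply norm_of_close
      rw [hV j hj]
      refine lt_of_le_of_lt ?_ (r_lt (p := p))
      have h1 := hd' (t k) (t 0) k 0 (ht0 k hkn.le) (by rw [sub_self]; exact h00) hkn.le h00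
      have e : V k (t k) 1 j - V 0 (t 0) 1 j =
          (V k (t k) 1 j - V 0 (t 0) 1 j - Dv (t 0) 1 j * (t k - t 0) - Ev (t 0) 1 j * (k - 0)) +
            (Dv (t 0) 1 j * (t k - t 0) + Ev (t 0) 1 j * (k - 0)) := by ring
      rw [e]
      refine add_le' (h1.trans ?_) (add_le' ?_ ?_)
      · have h2 : max ‖t k - t 0‖ ‖k - 0‖ ≤ 1 := by
          refine max_le ((ht0 k hkn.le).trans r_lt.le) ?_
          rw [sub_zero, hkn]
          exact r_lt.le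
        calc (p : ℝ)⁻¹ * max ‖t k - t 0‖ ‖k - 0‖ ≤ (p : ℝ)⁻¹ * 1 :=
            mul_le_mul_of_nonneg_left h2 r_pos.le
          _ = (p : ℝ)⁻¹ := mul_one _
      · rw [norm_mul]
        calc ‖Dv (t 0) 1 j‖ * ‖t k - t 0‖ ≤ 1 * ‖t k - t 0‖ :=
            mul_le_mul_of_nonneg_right hD' (norm_nonneg _)
          _ ≤ (p : ℝ)⁻¹ := by rw [one_mul]; exact ht0 k hkn.le
      · rw [norm_mul, sub_zero, hkn]
        calc ‖Ev (t 0) 1 j‖ * (p : ℝ)⁻¹ ≤ 1 * (p : ℝ)⁻¹ :=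
            mul_le_mul_of_nonneg_right hE' r_pos.le
          _ = (p : ℝ)⁻¹ := one_mul _
    obtain ⟨h1, h2⟩ := hL p k (t k) 1 (n + 1) hk0 hkn.le (hlip k k hkn.le hkn.le).1 (fun j hj => by
      refine ⟨hunit j hj, ?_⟩
      rcases Nat.lt_succ_iff_lt_or_eq.1 hj with h | h
      · exact norm_pos_iff.1 (by rw [hunit (j + 1) (by omega)]; exact one_pos)
      · rw [h]
        exact hu0) (n + 1) le_rfl
    refine ⟨?_, fun i hi => ?_⟩
    · have e1 : Z k (t k) 1 (2 * (n + 1) + 1) = F k (t k) (Z k (t k) 1 (2 * (n + 1))) := rfl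
      rw [e1, h1]
    · rcases Nat.lt_succ_iff_lt_or_eq.1 hi with h | h
      · exact h2 i h
      · rw [h, h1]
        refine ⟨hu0, ?_⟩
        have h3 : ‖V k (t k) 1 (n + 1) ^ 2 + t k * V k (t k) 1 (n + 1) + 1‖ = 1 := by
          have h4 : ‖(1 : ℚ_[p])‖ = 1 := norm_one
          rw [← h4]
          apply norm_of_close
          rw [add_sub_cancel_right, norm_one]
          refine lt_of_le_of_lt (add_le' (r := (p : ℝ)⁻¹) ?_ ?_) (r_lt (p := p))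
          · rw [norm_pow, hu, sq]
            exact hrr.le
          · rw [norm_mul, hu]
            calc ‖t k‖ * (p : ℝ)⁻¹ ≤ 1 * (p : ℝ)⁻¹ :=
                mul_le_mul_of_nonneg_right (hlip k k hkn.le hkn.le).1 r_pos.le
              _ = (p : ℝ)⁻¹ := one_mul _
        exact norm_pos_iff.1 (by rw [h3]; exact one_pos)
  have hrad : (p : ℝ)⁻¹ / (p : ℝ) = (p : ℝ)⁻¹ * (p : ℝ)⁻¹ := by rw [div_eq_mul_inv]
  refine ⟨k₀, hk₀, ?_⟩
  rw [hrad]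
  intro k hk
  have hself : ‖k₀ - k₀‖ ≤ (p : ℝ)⁻¹ * (p : ℝ)⁻¹ := by
    rw [sub_self, norm_zero]
    exact mul_nonneg r_pos.le r_pos.le
  refine ⟨(hZ k hk).2, ?_, fun k' hk' => ?_⟩
  · have h1 := (hball k k₀ hk hself).2
    change ‖F k (t k) (V k (t k) 1 (n + 1)) - F k₀ (t k₀) (V k₀ (t k₀) 1 (n + 1))‖ = _ at h1
    change F k₀ (t k₀) (V k₀ (t k₀) 1 (n + 1)) = c at hF
    rw [hF] at h1
    rw [(hZ k hk).1, h1, div_le_iff₀ r_pos]
    exact hk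
  · rw [(hZ k hk).1, (hZ k' hk').1]
    have h1 := (hball k k' hk hk').2
    change ‖F k (t k) (V k (t k) 1 (n + 1)) - F k' (t k') (V k' (t k') 1 (n + 1))‖ = _ at h1
    rw [h1, div_inv_eq_mul, mul_comm]

end BAS

theorem t_BAS (hE : S_EST) (hL : S_LNK) (hB1 : S_B1) : S_BAS := by
  intro p _ n τ₀ σ t hC hA
  obtain ⟨hτ, hV, hV2, hVn⟩ := id hA
  have hc : ‖V 0 (t 0) 1 n‖ = 1 := hV n (Nat.lt_succ_self n)
  have hc0 : V 0 (t 0) 1 n ≠ 0 := norm_pos_iff.1 (by rw [hc]; exact one_pos)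
  have hq : V 0 (t 0) 1 n ^ 2 + t 0 * V 0 (t 0) 1 n + 1 = V 0 (t 0) 1 n * V 0 (t 0) 1 (n + 1) := by
    have e : V 0 (t 0) 1 (n + 1) = Γ 0 (t 0) (V 0 (t 0) 1 n) := rfl
    rw [e]
    unfold Γ H
    rw [mul_zero, zero_mul, zero_pow (by norm_num), zero_mul, add_zero, add_zero, div_one]
    field_simp
  have hq' : ‖V 0 (t 0) 1 n ^ 2 + t 0 * V 0 (t 0) 1 n + 1‖ ≤ (p : ℝ)⁻¹ := by
    rw [hq, norm_mul, hc, hVn, one_mul]
  by_cases hb : ‖V 0 (t 0) 1 n - (Dv (t 0) 1 (n + 1) * σ + Ev (t 0) 1 (n + 1))‖ = 1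
  · exact ⟨_, _, hc, hV2, hq', BAS.first hE hL hB1 hC hA _ hc hb⟩
  · have hbl : ‖Dv (t 0) 1 (n + 1) * σ + Ev (t 0) 1 (n + 1)‖ ≤ 1 := by
      obtain ⟨hD, hEv, -, -⟩ := hE p 1 (t 0) (n + 1) (by simp) hτ hV (n + 1) le_rfl
      refine BAS.add_le' ?_ hEv
      rw [norm_mul]
      exact mul_le_one₀ hD (norm_nonneg _) hC.2.1
    have hlt : ‖V 0 (t 0) 1 n - (Dv (t 0) 1 (n + 1) * σ + Ev (t 0) 1 (n + 1))‖ < 1 := by
      refine lt_of_le_of_ne ?_ hb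
      rw [sub_eq_add_neg]
      exact BAS.add_le' hc.le (by rw [norm_neg]; exact hbl)
    set c := V 0 (t 0) 1 n with hcdef
    have hci : ‖1 / c‖ = 1 := by rw [norm_div, hc, norm_one, div_one]
    refine ⟨1 / c, 2 * (n + 1) + 1, hci, ?_, ?_, BAS.first hE hL hB1 hC hA (1 / c) hci ?_⟩
    · have e : (1 / c) ^ 2 - 1 = -(c ^ 2 - 1) / c ^ 2 := by
        field_simp
        ring
      rw [e, norm_div, norm_neg, norm_pow, hc, hV2, one_pow, div_one]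
    · have e : (1 / c) ^ 2 + t 0 * (1 / c) + 1 = (c ^ 2 + t 0 * c + 1) / c ^ 2 := by
        field_simp
        ring
      rw [e, norm_div, norm_pow, hc, one_pow, div_one]
      exact hq'
    · have h1 : ‖1 / c - c‖ = 1 := by
        have e : 1 / c - c = -(c ^ 2 - 1) / c := by
          field_simp
          ring
        rw [e, norm_div, norm_neg, hc, hV2, div_one]
      rw [← h1]
      apply BAS.norm_of_close
      rw [h1]
      have e : 1 / c - (Dv (t 0) 1 (n + 1) * σ + Ev (t 0) 1 (n + 1)) - (1 / c - c) =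
          c - (Dv (t 0) 1 (n + 1) * σ + Ev (t 0) 1 (n + 1)) := by ring
      rw [e]
      exact hlt

end

end Pool.Agent.K6.H14.PE
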