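import Pool.Agent.K6.H14.PE.Stm
import Pool.Agent.Y955.PF.Iso

/-!
# CUR (written by helper15 for call14q)
-/

set_option autoImplicit false

namespace Pool.Agent.K6.H14.PE

open Pool.Agent.Y955.PF

namespace CUR

theorem norm_eq_of_sub_lt {p : ℕ} [Fact p.Prime] {a b : ℚ_[p]} (h : ‖a - b‖ < ‖b‖) :
    ‖a‖ = ‖b‖ := by
  have h1 : a = (a - b) + b := by ring
  rw [h1]
  rw [Padic.add_eq_max_of_ne h.ne, max_eq_right h.le]

theorem norm_sub_le_max {p : ℕ} [Fact p.Prime] (a b : ℚ_[p]) : ‖a - b‖ ≤ max ‖a‖ ‖b‖ := by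
  rw [sub_eq_add_neg, ← norm_neg b]
  exact Padic.nonarchimedean a (-b)

end CUR

theorem t_CUR (h1 : S_EST) (h2 : S_LNK) : S_CUR := by
  intro p _ τ₀ n M hnM hτ₀ hV h0 hD
  have hp1 : (1 : ℝ) < p := by exact_mod_cast (Fact.out : p.Prime).one_lt
  have hp0 : (0 : ℝ) < p := by linarith
  set r : ℝ := (p : ℝ)⁻¹ with hr
  have hr0 : 0 < r := inv_pos.2 hp0
  have hr1 : r < 1 := inv_lt_one_of_one_lt₀ hp1
  have hx : ‖(-1 : ℚ_[p])‖ = 1 := by rw [norm_neg, norm_one]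
  have hEST := h1 p (-1) τ₀ M hx hτ₀ (fun j hj => hV j hj.le)
  set D : ℚ_[p] := Dv τ₀ (-1) M - Dv τ₀ (-1) n with hDdef
  set E : ℚ_[p] := Ev τ₀ (-1) M - Ev τ₀ (-1) n with hEdef
  have hE : ‖E‖ ≤ 1 :=
    (CUR.norm_sub_le_max _ _).trans (max_le (hEST M le_rfl).2.1 (hEST n hnM.le).2.1)
  let Φ : ℚ_[p] → ℚ_[p] → ℚ_[p] := fun k τ => V k τ (-1) M - V k τ (-1) n
  have hΦ : ∀ τ τ' k k' : ℚ_[p], ‖τ - τ₀‖ ≤ r → ‖τ' - τ₀‖ ≤ r → ‖k‖ ≤ r → ‖k'‖ ≤ r →
      ‖Φ k τ - Φ k' τ' - D * (τ - τ') - E * (k - k')‖ ≤ r * max ‖τ - τ'‖ ‖k - k'‖ := by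
    intro τ τ' k k' a1 a2 a3 a4
    have e1 := (hEST M le_rfl).2.2.2 τ τ' k k' a1 a2 a3 a4
    have e2 := (hEST n hnM.le).2.2.2 τ τ' k k' a1 a2 a3 a4
    have e3 : Φ k τ - Φ k' τ' - D * (τ - τ') - E * (k - k') =
        (V k τ (-1) M - V k' τ' (-1) M - Dv τ₀ (-1) M * (τ - τ') - Ev τ₀ (-1) M * (k - k')) -
        (V k τ (-1) n - V k' τ' (-1) n - Dv τ₀ (-1) n * (τ - τ') - Ev τ₀ (-1) n * (k - k')) := by
      simp only [Φ, hDdef, hEdef]
      ring
    rw [e3]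
    exact (CUR.norm_sub_le_max _ _).trans (max_le e1 e2)
  have hself : ‖τ₀ - τ₀‖ ≤ r := by rw [sub_self, norm_zero]; exact hr0.le
  have hiso : ∀ k : ℚ_[p], ‖k‖ ≤ r → ∀ τ τ' : ℚ_[p], ‖τ - τ₀‖ ≤ r → ‖τ' - τ₀‖ ≤ r →
      ‖Φ k τ - Φ k τ'‖ = 1 * ‖τ - τ'‖ := by
    intro k hk τ τ' a1 a2
    rw [one_mul]
    by_cases h : τ = τ'
    · rw [h, sub_self, sub_self]
    have hpos : 0 < ‖τ - τ'‖ := norm_pos_iff.2 (sub_ne_zero.2 h)
    have e1 := hΦ τ τ' k k a1 a2 hk hk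
    rw [sub_self, mul_zero, sub_zero, norm_zero, max_eq_left hpos.le] at e1
    have e2 : ‖D * (τ - τ')‖ = ‖τ - τ'‖ := by rw [norm_mul, hD, one_mul]
    rw [← e2]
    apply CUR.norm_eq_of_sub_lt
    rw [e2]
    refine e1.trans_lt ?_
    calc r * ‖τ - τ'‖ < 1 * ‖τ - τ'‖ := mul_lt_mul_of_pos_right hr1 hpos
      _ = ‖τ - τ'‖ := one_mul _
  have hex : ∀ k : ℚ_[p], ‖k‖ ≤ r → ∃ τ : ℚ_[p], ‖τ - τ₀‖ ≤ r ∧ Φ k τ = 0 := by
    intro k hk
    refine iso p (Φ k) τ₀ r 1 hr0 one_pos (fun x y a1 a2 => hiso k hk x y a1 a2) 0 ?_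
    rw [zero_sub, norm_neg, one_mul]
    have e0 : ‖(0 : ℚ_[p])‖ ≤ r := by rw [norm_zero]; exact hr0.le
    have e1 := hΦ τ₀ τ₀ k 0 hself hself hk e0
    rw [sub_self, mul_zero, sub_zero, norm_zero, sub_zero, max_eq_right (norm_nonneg k)] at e1
    have e2 : Φ k τ₀ = (Φ k τ₀ - Φ 0 τ₀ - E * k) + (Φ 0 τ₀ + E * k) := by ring
    rw [e2]
    refine (Padic.nonarchimedean _ _).trans (max_le ?_ ((Padic.nonarchimedean _ _).trans
      (max_le h0 ?_)))
    · refine e1.trans ?_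
      calc r * ‖k‖ ≤ 1 * r := mul_le_mul hr1.le hk (norm_nonneg _) zero_le_one
        _ = r := one_mul _
    · rw [norm_mul]
      calc ‖E‖ * ‖k‖ ≤ 1 * r := mul_le_mul hE hk (norm_nonneg _) zero_le_one
        _ = r := one_mul _
  classical
  let t : ℚ_[p] → ℚ_[p] := fun k => if h : ‖k‖ ≤ r then (hex k h).choose else τ₀
  have ht1 : ∀ k : ℚ_[p], ‖k‖ ≤ r → ‖t k - τ₀‖ ≤ r := by
    intro k hk
    simp only [t, dif_pos hk]
    exact (hex k hk).choose_spec.1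
  have ht2 : ∀ k : ℚ_[p], ‖k‖ ≤ r → Φ k (t k) = 0 := by
    intro k hk
    simp only [t, dif_pos hk]
    exact (hex k hk).choose_spec.2
  have hD0 : D ≠ 0 := by
    intro h
    rw [h, norm_zero] at hD
    exact zero_ne_one hD
  have hz : ‖(0 : ℚ_[p])‖ ≤ r := by rw [norm_zero]; exact hr0.le
  refine ⟨-E / D, t, ⟨hτ₀, ?_, ht1, ?_, ?_⟩, ?_⟩
  · rw [norm_div, norm_neg, hD, div_one]
    exact hE
  · intro k k' hk hk'
    have e1 := hΦ (t k) (t k') k k' (ht1 k hk) (ht1 k' hk') hk hk'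
    rw [ht2 k hk, ht2 k' hk'] at e1
    have e2 : (0 : ℚ_[p]) - 0 - D * (t k - t k') - E * (k - k') =
        -(D * (t k - t k' - -E / D * (k - k'))) := by
      field_simp
      ring
    have e3 : ‖t k - t k'‖ ≤ ‖k - k'‖ := by
      by_contra hc
      have hc' : ‖k - k'‖ < ‖t k - t k'‖ := not_le.1 hc
      rw [max_eq_left hc'.le] at e1
      have hpos : 0 < ‖t k - t k'‖ := (norm_nonneg _).trans_lt hc'
      have e4 : D * (t k - t k') =
          -((0 : ℚ_[p]) - 0 - D * (t k - t k') - E * (k - k')) - E * (k - k') := by ring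
      have e5 : ‖D * (t k - t k')‖ < ‖t k - t k'‖ := by
        rw [e4]
        refine (CUR.norm_sub_le_max _ _).trans_lt (max_lt ?_ ?_)
        · rw [norm_neg]
          refine e1.trans_lt ?_
          calc r * ‖t k - t k'‖ < 1 * ‖t k - t k'‖ := mul_lt_mul_of_pos_right hr1 hpos
            _ = ‖t k - t k'‖ := one_mul _
        · rw [norm_mul]
          calc ‖E‖ * ‖k - k'‖ ≤ 1 * ‖k - k'‖ :=
                mul_le_mul_of_nonneg_right hE (norm_nonneg _)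
            _ = ‖k - k'‖ := one_mul _
            _ < ‖t k - t k'‖ := hc'
      rw [norm_mul, hD, one_mul] at e5
      exact lt_irrefl _ e5
    rw [e2, norm_neg, norm_mul, hD, one_mul, max_eq_right e3] at e1
    exact e1
  · intro k hk0 hk
    have hunit : ∀ j ≤ M, ‖V k (t k) (-1) j‖ = 1 := by
      intro j hj
      obtain ⟨hDj, hEj, -, hest⟩ := hEST j hj
      have e1 := hest (t k) τ₀ k 0 (ht1 k hk) hself hk hz
      rw [sub_zero] at e1
      have e2 : ‖V k (t k) (-1) j - V 0 τ₀ (-1) j‖ ≤ r := by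
        have e3 : V k (t k) (-1) j - V 0 τ₀ (-1) j =
            (V k (t k) (-1) j - V 0 τ₀ (-1) j - Dv τ₀ (-1) j * (t k - τ₀) - Ev τ₀ (-1) j * k) +
            (Dv τ₀ (-1) j * (t k - τ₀) + Ev τ₀ (-1) j * k) := by ring
        rw [e3]
        refine (Padic.nonarchimedean _ _).trans (max_le ?_
          ((Padic.nonarchimedean _ _).trans (max_le ?_ ?_)))
        · refine e1.trans ?_
          calc r * max ‖t k - τ₀‖ ‖k‖ ≤ 1 * r :=
                mul_le_mul hr1.le (max_le (ht1 k hk) hk) (le_max_of_le_left (norm_nonneg _))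
                  zero_le_one
            _ = r := one_mul _
        · rw [norm_mul]
          calc ‖Dv τ₀ (-1) j‖ * ‖t k - τ₀‖ ≤ 1 * r :=
                mul_le_mul hDj (ht1 k hk) (norm_nonneg _) zero_le_one
            _ = r := one_mul _
        · rw [norm_mul]
          calc ‖Ev τ₀ (-1) j‖ * ‖k‖ ≤ 1 * r :=
                mul_le_mul hEj hk (norm_nonneg _) zero_le_one
            _ = r := one_mul _
      rw [← hV j hj]
      apply CUR.norm_eq_of_sub_lt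
      rw [hV j hj]
      exact e2.trans_lt hr1
    have htk : ‖t k‖ ≤ 1 := by
      have e1 : t k = (t k - τ₀) + τ₀ := by ring
      rw [e1]
      exact (Padic.nonarchimedean _ _).trans (max_le ((ht1 k hk).trans hr1.le) hτ₀)
    have hL := h2 p k (t k) (-1) M hk0 hk htk (fun j hj => ⟨hunit j hj.le, by
      intro h
      have := hunit (j + 1) hj
      rw [h, norm_zero] at this
      exact zero_ne_one this⟩)
    refine ⟨2 * n, 2 * M, by omega, ?_, (hL M le_rfl).2⟩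
    rw [(hL n hnM.le).1, (hL M le_rfl).1]
    exact (sub_eq_zero.1 (ht2 k hk)).symm
  · have e1 := hiso 0 hz (t 0) τ₀ (ht1 0 hz) hself
    rw [ht2 0 hz, one_mul, zero_sub, norm_neg] at e1
    rw [← e1]

end Pool.Agent.K6.H14.PE
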