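import Pool.Agent.K6.H14.PE.Stm
import Pool.Agent.Y955.PF.Iso

/-!
Piece FIN (helper35): the orbit of `1` ends in a pole for one parameter.
-/

set_option autoImplicit false

namespace Pool.Agent.K6.H14.PE

open Pool.Agent.Y955.PF

namespace FIN

variable {p : ℕ} [Fact p.Prime]

theorem uadd {a b : ℚ_[p]} {r : ℝ} (ha : ‖a‖ ≤ r) (hb : ‖b‖ ≤ r) : ‖a + b‖ ≤ r :=
  (Padic.nonarchimedean _ _).trans (max_le ha hb)

theorem uadd_eq {a b : ℚ_[p]} (h : ‖b‖ < ‖a‖) : ‖a + b‖ = ‖a‖ := by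
  rw [Padic.add_eq_max_of_ne h.ne', max_eq_left h.le]

theorem near {w c : ℚ_[p]} {r : ℝ} (hc : ‖c‖ = 1) (hr : r < 1) (h : ‖w - c‖ ≤ r) : ‖w‖ = 1 := by
  have e : w = c + (w - c) := by ring
  rw [e, uadd_eq (by rw [hc]; exact lt_of_le_of_lt h hr), hc]

end FIN

open FIN in
theorem t_FIN : S_FIN := by
  intro p _ t c C m ht hc hc2 hc3 hC hSt
  obtain ⟨k₀, hk₀, h⟩ := hSt
  have hp : (0 : ℝ) < p := by exact_mod_cast (Fact.out : p.Prime).pos
  have hp1 : (1 : ℝ) < p := by exact_mod_cast (Fact.out : p.Prime).one_lt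
  have hC1 : 1 < C := lt_of_lt_of_le hp1 hC
  have hC0 : 0 < C := by linarith
  obtain ⟨q, hq⟩ : ∃ q : ℝ, q = (p : ℝ)⁻¹ := ⟨_, rfl⟩
  have hq0 : 0 < q := by rw [hq]; positivity
  have hq1 : q < 1 := by rw [hq]; exact inv_lt_one_of_one_lt₀ hp1
  simp only [← hq] at ht hk₀ h hc3
  have hr : 0 < q / C := by positivity
  have hrq : q / C < q := div_lt_self hq0 hC1
  have hball : ∀ k : ℚ_[p], ‖k - k₀‖ ≤ q / C → ‖k‖ ≤ q := by
    intro k hk
    have e : k = (k - k₀) + k₀ := by ring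
    rw [e]
    exact uadd (hk.trans hrq.le) hk₀.le
  have hself : ‖k₀ - k₀‖ ≤ q / C := by
    rw [sub_self, norm_zero]
    exact hr.le
  have h0q : ‖(0 : ℚ_[p])‖ ≤ q := by rw [norm_zero]; exact hq0.le
  -- units
  have hw : ∀ k : ℚ_[p], ‖k - k₀‖ ≤ q / C → ‖Z k (t k) 1 m‖ = 1 := fun k hk =>
    near hc hq1 (h k hk).2.1
  have hsim : ∀ x y : ℚ_[p], ‖x - k₀‖ ≤ q / C → ‖y - k₀‖ ≤ q / C →
      ‖H (t x) (Z x (t x) 1 m) - H (t y) (Z y (t y) 1 m)‖ = C * ‖x - y‖ := by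
    intro x y hx hy
    have w1 := hw x hx
    have w2 := hw y hy
    have n1 := (h x hx).2.1
    have n2 := (h y hy).2.1
    have n3 := (h x hx).2.2 y hy
    have n4 := (ht x y (hball x hx) (hball y hy)).2
    generalize Z x (t x) 1 m = w at w1 n1 n3
    generalize Z y (t y) 1 m = w' at w2 n2 n3
    have hw0 : w ≠ 0 := norm_ne_zero_iff.1 (by rw [w1]; exact one_ne_zero)
    have hw0' : w' ≠ 0 := norm_ne_zero_iff.1 (by rw [w2]; exact one_ne_zero)
    rcases eq_or_ne x y with hxy | hxy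
    · subst hxy
      rw [sub_self, norm_zero, mul_zero] at n3
      have : w = w' := sub_eq_zero.1 (norm_eq_zero.1 n3)
      rw [this, sub_self, norm_zero, sub_self, norm_zero, mul_zero]
    · have hpos : 0 < ‖x - y‖ := norm_pos_iff.2 (sub_ne_zero.2 hxy)
      have e1 : H (t x) w - H (t y) w' = (w - w') * ((w * w' - 1) / (w * w')) + (t x - t y) := by
        simp only [H]
        field_simp
        ring
      have e2 : w * w' - 1 = (c ^ 2 - 1) + ((w - c) * w' + c * (w' - c)) := by ring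
      have e3 : ‖(w - c) * w' + c * (w' - c)‖ ≤ q := by
        refine uadd ?_ ?_
        · rw [norm_mul, w2, mul_one]; exact n1
        · rw [norm_mul, hc, one_mul]; exact n2
      have e4 : ‖w * w' - 1‖ = 1 := by
        rw [e2, uadd_eq (by rw [hc2]; exact lt_of_le_of_lt e3 hq1), hc2]
      have e5 : ‖(w - w') * ((w * w' - 1) / (w * w'))‖ = C * ‖x - y‖ := by
        rw [norm_mul, norm_div, norm_mul w w', e4, w1, w2, n3]
        ring
      rw [e1, uadd_eq, e5]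
      rw [e5]
      calc ‖t x - t y‖ ≤ ‖x - y‖ := n4
        _ < C * ‖x - y‖ := by nlinarith
  have hval : ‖(0 : ℚ_[p]) - H (t k₀) (Z k₀ (t k₀) 1 m)‖ ≤ C * (q / C) := by
    rw [mul_div_cancel₀ _ hC0.ne', zero_sub, norm_neg]
    have w1 := hw k₀ hself
    have n1 := (h k₀ hself).2.1
    have n2 := (ht k₀ 0 hk₀.le h0q).2
    have n3 := (ht k₀ 0 hk₀.le h0q).1
    have n4 := (ht 0 0 h0q h0q).1
    rw [sub_zero, hk₀] at n2
    generalize Z k₀ (t k₀) 1 m = w at w1 n1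
    simp only [H]
    rw [norm_div, w1, div_one]
    have e : w ^ 2 + t k₀ * w + 1 = ((c ^ 2 + t 0 * c + 1) + (t k₀ - t 0) * w) +
        ((w - c) * (w + c) + t 0 * (w - c)) := by ring
    rw [e]
    refine uadd (uadd hc3 ?_) (uadd ?_ ?_)
    · rw [norm_mul, w1, mul_one]; exact n2
    · rw [norm_mul]
      have : ‖w + c‖ ≤ 1 := uadd w1.le hc.le
      calc ‖w - c‖ * ‖w + c‖ ≤ q * 1 := mul_le_mul n1 this (norm_nonneg _) hq0.le
        _ = q := mul_one q
    · rw [norm_mul]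
      calc ‖t 0‖ * ‖w - c‖ ≤ 1 * q := mul_le_mul n4 n1 (norm_nonneg _) zero_le_one
        _ = q := one_mul q
  obtain ⟨k, hk, hHk⟩ := iso p (fun k => H (t k) (Z k (t k) 1 m)) k₀ (q / C) C hr hC0 hsim 0 hval
  have hwk := hw k hk
  have hwk0 : Z k (t k) 1 m ≠ 0 := norm_ne_zero_iff.1 (by rw [hwk]; exact one_ne_zero)
  refine ⟨k, ?_, hq ▸ hball k hk, (h k hk).1, ?_⟩
  · rintro rfl
    rw [zero_sub, norm_neg, hk₀] at hk
    linarith
  · have h5 : H (t k) (Z k (t k) 1 m) = 0 := hHk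
    simp only [H] at h5
    exact (div_eq_zero_iff.1 h5).resolve_right hwk0

end Pool.Agent.K6.H14.PE
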