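import Pool.Agent.K6.H14.PE.Stm
import Pool.Agent.Y955.PF.PCom

/-! Piece GD of call14q (helper99). -/

set_option autoImplicit false

namespace Pool.Agent.K6.H14.PE

open Pool.Agent.Y955.PF OnePoint

namespace GD

theorem orbit_finite_periodic {α : Type} (f : α → α) (z : α) (m : ℕ) (hm : 0 < m)
    (h : f^[m] z = z) : (Set.range fun n : ℕ => f^[n] z).Finite := by
  have h2 : (Set.range fun n : ℕ => f^[n] z) ⊆ (fun n : ℕ => f^[n] z) '' Set.Iio m := by
    rintro _ ⟨n, rfl⟩
    refine ⟨n % m, Nat.mod_lt n hm, ?_⟩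
    have h3 : Function.IsPeriodicPt f m z := h
    exact h3.iterate_mod_apply n
  exact ((Set.finite_Iio m).image _).subset h2

theorem iterate_chain {α : Type} (f : α → α) (y : ℕ → α) (j : ℕ)
    (h : ∀ l < j, f (y l) = y (l + 1)) (i : ℕ) :
    ∀ s : ℕ, i + s ≤ j → f^[s] (y i) = y (i + s) := by
  intro s
  induction s with
  | zero => intro _; rfl
  | succ s ih =>
    intro hs
    rw [Function.iterate_succ_apply', ih (by omega), h (i + s) (by omega)]
    rfl

/-- the denominator -/
noncomputable def Q {K : Type} [Field K] (k τ : K) : Polynomial K :=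
  Polynomial.C k * (Polynomial.X ^ 2 + Polynomial.C τ * Polynomial.X + 1)

theorem eval_Q {K : Type} [Field K] (k τ y : K) : (Q k τ).eval y = k * (y ^ 2 + τ * y + 1) := by
  simp [Q]

theorem coeff_Q {K : Type} [Field K] (k τ : K) : (Q k τ).coeff 2 = k := by
  unfold Q
  rw [Polynomial.coeff_C_mul, Polynomial.coeff_add, Polynomial.coeff_add,
    Polynomial.coeff_X_pow, Polynomial.coeff_C_mul, Polynomial.coeff_X, Polynomial.coeff_one]
  simp

theorem natDegree_Q {K : Type} [Field K] (k τ : K) (hk : k ≠ 0) : (Q k τ).natDegree = 2 := by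
  unfold Q
  rw [Polynomial.natDegree_C_mul hk]
  compute_degree!

theorem map_Q {K L : Type} [Field K] [Field L] (ι : K →+* L) (k τ : K) :
    (Q k τ).map ι = Q (ι k) (ι τ) := by
  simp [Q]

theorem wronskian {K : Type} [Field K] (k τ z : K) :
    (Polynomial.derivative (Polynomial.X : Polynomial K) * Q k τ -
      Polynomial.X * Polynomial.derivative (Q k τ)).eval z = k * (1 - z ^ 2) := by
  unfold Q
  simp only [Polynomial.derivative_C, Polynomial.derivative_add, Polynomial.derivative_X_pow,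
    Polynomial.derivative_X, Polynomial.derivative_mul, Polynomial.derivative_one, zero_mul,
    Polynomial.eval_sub, Polynomial.eval_mul, Polynomial.eval_zero,
    Polynomial.eval_C, Polynomial.eval_add, Polynomial.eval_one, Polynomial.eval_pow,
    Polynomial.eval_X]
  push_cast
  ring

theorem coprime {K : Type} [Field K] (k τ : K) (hk : k ≠ 0) :
    IsCoprime (Polynomial.X : Polynomial K) (Q k τ) := by
  unfold Q
  apply IsCoprime.mul_right
  · exact isCoprime_one_right.of_isCoprime_of_dvd_right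
      (Polynomial.isUnit_C.2 (isUnit_iff_ne_zero.2 hk)).dvd
  · refine ⟨-(Polynomial.X + Polynomial.C τ), 1, ?_⟩
    ring

end GD

open GD in
theorem t_GD : S_GD := by
  intro p _ T k τ hx N hN
  obtain ⟨hk, hstep, hT, i, j, hij, hZ, hreg⟩ := hx
  set f := ratMap 2 (Polynomial.X : Polynomial ℚ_[p]) (Q k τ) with hf
  -- values
  have hval : ∀ y : ℚ_[p], y ^ 2 + τ * y + 1 ≠ 0 →
      f (y : OnePoint ℚ_[p]) = ((F k τ y : ℚ_[p]) : OnePoint ℚ_[p]) := by
    intro y hy
    rw [hf, ratMap_coe 2 _ _ y (by rw [eval_Q]; exact mul_ne_zero hk hy), eval_Q,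
      Polynomial.eval_X]
    rfl
  have hpole : ∀ y : ℚ_[p], y ^ 2 + τ * y + 1 = 0 → f (y : OnePoint ℚ_[p]) = ∞ := by
    intro y hy
    rw [hf]
    apply ratMap_coe_pole
    rw [eval_Q, hy, mul_zero]
  have hzero : f ((0 : ℚ_[p]) : OnePoint ℚ_[p]) = ((0 : ℚ_[p]) : OnePoint ℚ_[p]) := by
    rw [hval 0 (by norm_num)]
    unfold F
    rw [zero_div]
  have hinf : f ∞ = ((0 : ℚ_[p]) : OnePoint ℚ_[p]) := by
    rw [hf]
    unfold ratMap
    rw [OnePoint.elim_infty]
    have h2 : (Polynomial.X : Polynomial ℚ_[p]).coeff 2 = 0 := by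
      rw [Polynomial.coeff_X]
      norm_num
    rw [coeff_Q, h2, if_neg hk, zero_div]
  have o0 := orbit_finite_fixed f _ hzero
  have oinf := orbit_finite_step f _ _ hinf o0
  -- the orbit of `1`
  have hchain : ∀ l < T, f ((Z k τ 1 l : ℚ_[p]) : OnePoint ℚ_[p]) =
      ((Z k τ 1 (l + 1) : ℚ_[p]) : OnePoint ℚ_[p]) := by
    intro l hl
    rw [hval (Z k τ 1 l) (hstep l hl).2]
    rfl
  have oT : (Set.range fun n : ℕ => f^[n] ((Z k τ 1 T : ℚ_[p]) : OnePoint ℚ_[p])).Finite :=
    orbit_finite_step f _ _ (hpole _ hT) oinf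
  have o1 : (Set.range fun n : ℕ => f^[n] ((1 : ℚ_[p]) : OnePoint ℚ_[p])).Finite :=
    orbit_finite_chain f (fun l => ((Z k τ 1 l : ℚ_[p]) : OnePoint ℚ_[p])) T hchain oT 0
      (Nat.zero_le _)
  -- the orbit of `-1`
  have hchain' : ∀ l < j, f ((Z k τ (-1) l : ℚ_[p]) : OnePoint ℚ_[p]) =
      ((Z k τ (-1) (l + 1) : ℚ_[p]) : OnePoint ℚ_[p]) := by
    intro l hl
    rw [hval (Z k τ (-1) l) (hreg l hl).2]
    rfl
  have oi : (Set.range fun n : ℕ => f^[n] ((Z k τ (-1) i : ℚ_[p]) : OnePoint ℚ_[p])).Finite := by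
    apply orbit_finite_periodic f _ (j - i) (by omega)
    have h1 := iterate_chain f (fun l => ((Z k τ (-1) l : ℚ_[p]) : OnePoint ℚ_[p])) j hchain' i
      (j - i) (by omega)
    rw [show i + (j - i) = j by omega] at h1
    refine h1.trans ?_
    show ((Z k τ (-1) j : ℚ_[p]) : OnePoint ℚ_[p]) = _
    rw [hZ]
  have om1 : (Set.range fun n : ℕ => f^[n] ((-1 : ℚ_[p]) : OnePoint ℚ_[p])).Finite :=
    orbit_finite_chain f (fun l => ((Z k τ (-1) l : ℚ_[p]) : OnePoint ℚ_[p])) i
      (fun l hl => hchain' l (by omega)) oi 0 (Nat.zero_le _)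
  refine ⟨Polynomial.X, Q k τ, ⟨coprime k τ hk, ?_⟩, ?_, 1, ?_,
    fun l => ((Z k τ 1 l : ℚ_[p]) : OnePoint ℚ_[p]), rfl, ?_, ?_⟩
  · rw [natDegree_Q k τ hk, Polynomial.natDegree_X]
    rfl
  · -- PCF
    intro z hz
    set ι := algebraMap ℚ_[p] (AlgebraicClosure ℚ_[p]) with hι
    cases z with
    | infty =>
      have := orbit_finite_map ι 2 (Polynomial.X : Polynomial ℚ_[p]) (Q k τ) ∞ oinf
      exact this
    | coe z =>
      have hz' : (Polynomial.derivative ((Polynomial.X : Polynomial ℚ_[p]).map ι) *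
          ((Q k τ).map ι) - ((Polynomial.X : Polynomial ℚ_[p]).map ι) *
            Polynomial.derivative ((Q k τ).map ι)).eval z = 0 := hz
      rw [Polynomial.map_X, map_Q, GD.wronskian] at hz'
      have hιk : ι k ≠ 0 := by
        rw [Ne, map_eq_zero]
        exact hk
      have h1 : 1 - z ^ 2 = 0 := (mul_eq_zero.1 hz').resolve_left hιk
      have h2 : (z - 1) * (z + 1) = 0 := by linear_combination -h1
      rcases mul_eq_zero.1 h2 with h | h
      · have h3 : z = ι 1 := by
          rw [map_one]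
          exact sub_eq_zero.1 h
        have := orbit_finite_map ι 2 (Polynomial.X : Polynomial ℚ_[p]) (Q k τ)
          ((1 : ℚ_[p]) : OnePoint ℚ_[p]) o1
        rw [OnePoint.map_some] at this
        rw [h3]
        exact this
      · have h3 : z = ι (-1) := by
          rw [map_neg, map_one]
          exact eq_neg_of_add_eq_zero_left h
        have := orbit_finite_map ι 2 (Polynomial.X : Polynomial ℚ_[p]) (Q k τ)
          ((-1 : ℚ_[p]) : OnePoint ℚ_[p]) om1
        rw [OnePoint.map_some] at this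
        rw [h3]
        exact this
  · rw [GD.wronskian]
    ring
  · intro l hl
    exact (hchain l (by omega)).symm
  · have h1 := injOn_orbit (fun y => F k τ y) (fun l => Z k τ 1 l) T (Z k τ 1 T)
      (fun l _ => rfl) rfl (fun l hl h => (hstep l hl).2 (by
        have h' : Z k τ 1 l = Z k τ 1 T := h
        rw [h']
        exact hT))
    intro a ha b hb hab
    exact h1 (le_trans ha hN) (le_trans hb hN) (OnePoint.coe_injective hab)

end Pool.Agent.K6.H14.PE
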