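import Pool.Agent.K6.H14.PE.Stm

/-!
# Piece LNK (helper31): the orbit of `F k τ` and the orbit of its second iterate
-/

set_option autoImplicit false

namespace Pool.Agent.K6.H14.PE

namespace LNK

theorem den_ne {p : ℕ} [Fact p.Prime] {h τ : ℚ_[p]} (hh : ‖h‖ < 1) (hτ : ‖τ‖ ≤ 1) :
    1 + τ * h + h ^ 2 ≠ 0 := by
  intro h0
  have h1 : (1 : ℚ_[p]) = -(τ * h + h ^ 2) := by linear_combination h0
  have h2 : ‖τ * h + h ^ 2‖ < 1 := by
    refine (Padic.nonarchimedean _ _).trans_lt (max_lt ?_ ?_)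
    · rw [norm_mul]
      calc ‖τ‖ * ‖h‖ ≤ 1 * ‖h‖ := mul_le_mul_of_nonneg_right hτ (norm_nonneg _)
        _ = ‖h‖ := one_mul _
        _ < 1 := hh
    · rw [norm_pow]
      exact pow_lt_one₀ (norm_nonneg _) hh two_ne_zero
  have h3 : ‖(1 : ℚ_[p])‖ = ‖τ * h + h ^ 2‖ := by
    conv_lhs => rw [h1]
    rw [norm_neg]
  rw [norm_one] at h3
  linarith

theorem norm_H_le {p : ℕ} [Fact p.Prime] {u τ : ℚ_[p]} (hu : ‖u‖ = 1) (hτ : ‖τ‖ ≤ 1) :
    ‖H τ u‖ ≤ 1 := by
  unfold H
  rw [norm_div, hu, div_one]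
  refine (Padic.nonarchimedean _ _).trans (max_le ?_ (by rw [norm_one]))
  refine (Padic.nonarchimedean _ _).trans (max_le ?_ ?_)
  · rw [norm_pow, hu, one_pow]
  · rw [norm_mul, hu, mul_one]; exact hτ

end LNK

theorem t_LNK : S_LNK := by
  intro p _ k τ x n hk hkp hτ hV j
  have hp1 : (p : ℝ)⁻¹ < 1 := by
    apply inv_lt_one_of_one_lt₀
    exact_mod_cast (Fact.out : p.Prime).one_lt
  induction j with
  | zero =>
    intro _
    exact ⟨rfl, fun i hi => absurd hi (by omega)⟩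
  | succ j ih =>
    intro hj
    obtain ⟨h1, h2⟩ := ih (by omega)
    obtain ⟨hu, hne⟩ := hV j (by omega)
    set u := V k τ x j with hudef
    have hV1 : V k τ x (j + 1) = Γ k τ u := rfl
    have hu0 : u ≠ 0 := by
      intro h
      rw [h, norm_zero] at hu
      exact zero_ne_one hu
    have hH : H τ u ≠ 0 := by
      intro h
      apply hne
      rw [hV1]
      unfold Γ
      rw [h, zero_div]
    have hq : u ^ 2 + τ * u + 1 ≠ 0 := by
      intro h
      apply hH
      unfold H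
      rw [h, zero_div]
    have hkH : k * H τ u ≠ 0 := mul_ne_zero hk hH
    have hnorm : ‖k * H τ u‖ < 1 := by
      rw [norm_mul]
      calc ‖k‖ * ‖H τ u‖ ≤ ‖k‖ * 1 :=
            mul_le_mul_of_nonneg_left (LNK.norm_H_le hu hτ) (norm_nonneg _)
        _ = ‖k‖ := mul_one _
        _ < 1 := hkp.trans_lt hp1
    have hD : 1 + τ * (k * H τ u) + (k * H τ u) ^ 2 ≠ 0 := LNK.den_ne hnorm hτ
    have hZ1 : Z k τ x (2 * j + 1) = 1 / (k * H τ u) := by
      show F k τ (Z k τ x (2 * j)) = _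
      rw [h1]
      unfold F H
      field_simp
    have hq1 : (1 / (k * H τ u)) ^ 2 + τ * (1 / (k * H τ u)) + 1 =
        (1 + τ * (k * H τ u) + (k * H τ u) ^ 2) / (k * H τ u) ^ 2 := by
      generalize k * H τ u = h at hkH
      field_simp
    have hZ2 : Z k τ x (2 * (j + 1)) = V k τ x (j + 1) := by
      show F k τ (Z k τ x (2 * j + 1)) = _
      rw [hZ1, hV1]
      unfold F
      rw [hq1]
      unfold Γ
      have e : 1 + τ * k * H τ u + k ^ 2 * H τ u ^ 2 =
        1 + τ * (k * H τ u) + (k * H τ u) ^ 2 := by ring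
      rw [e]
      generalize hDD : 1 + τ * (k * H τ u) + (k * H τ u) ^ 2 = D at hD
      field_simp
    refine ⟨hZ2, ?_⟩
    intro i hi
    rcases Nat.lt_or_ge i (2 * j) with h | h
    · exact h2 i h
    · rcases Nat.eq_or_lt_of_le h with h | h
      · rw [← h, h1]
        exact ⟨hu0, hq⟩
      · have hi' : i = 2 * j + 1 := by omega
        rw [hi', hZ1]
        refine ⟨one_div_ne_zero hkH, ?_⟩
        rw [hq1]
        exact div_ne_zero hD (pow_ne_zero 2 hkH)

end Pool.Agent.K6.H14.PE
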