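import Pool.Agent.Y955.PF.Stm

/-!
# Quadratic postcritically finite maps `u / (k (u ^ 2 + τ u + 1))` over `ℚ_p`, `p` odd: statements

The critical points are `1` and `-1`; `0` is a fixed point with multiplier `1 / k`. For small `k` the
second iterate at `|u| = 1` is close to `u + 1 / u + τ`.
-/

set_option autoImplicit false

namespace Pool.Agent.K6.H14.PE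

open Pool.Agent.Y955.PF

noncomputable section

variable {K : Type} [Field K]

/-- the map -/
def F (k τ u : K) : K := u / (k * (u ^ 2 + τ * u + 1))

/-- `u + 1 / u + τ` -/
def H (τ u : K) : K := (u ^ 2 + τ * u + 1) / u

/-- the second iterate of `F k τ` -/
def Γ (k τ u : K) : K := H τ u / (1 + τ * k * H τ u + k ^ 2 * H τ u ^ 2)

/-- orbits of `F k τ` -/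
def Z (k τ x : K) : ℕ → K
  | 0 => x
  | j + 1 => F k τ (Z k τ x j)

/-- orbits of `Γ k τ` -/
def V (k τ x : K) : ℕ → K
  | 0 => x
  | j + 1 => Γ k τ (V k τ x j)

/-- derivative of `V k τ x j` with respect to `τ` at `k = 0` -/
def Dv (τ x : K) : ℕ → K
  | 0 => 0
  | j + 1 => (1 - 1 / V 0 τ x j ^ 2) * Dv τ x j + 1

/-- derivative of `V k τ x j` with respect to `k` at `k = 0` -/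
def Ev (τ x : K) : ℕ → K
  | 0 => 0
  | j + 1 => (1 - 1 / V 0 τ x j ^ 2) * Ev τ x j - τ * H τ (V 0 τ x j) ^ 2

/-- not a pole -/
def Reg (τ u : K) : Prop := u ≠ 0 ∧ u ^ 2 + τ * u + 1 ≠ 0

/-- the orbit of `-1` is finite (it does not meet the poles) -/
def FinB (k τ : K) : Prop := ∃ i j : ℕ, i < j ∧ Z k τ (-1) i = Z k τ (-1) j ∧ ∀ l < j, Reg τ (Z k τ (-1) l)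

/-- the orbit of `1` ends in a pole, the orbit of `-1` is finite -/
def DataF (p : ℕ) [Fact p.Prime] (T : ℕ) (k τ : ℚ_[p]) : Prop :=
  k ≠ 0 ∧ (∀ i < T, Reg τ (Z k τ 1 i)) ∧ Z k τ 1 T ^ 2 + τ * Z k τ 1 T + 1 = 0 ∧ FinB k τ

/-- a curve `τ = t k` with derivative `σ` modulo `p`, on which the orbit of `-1` is finite -/
def Curve (p : ℕ) [Fact p.Prime] (τ₀ σ : ℚ_[p]) (t : ℚ_[p] → ℚ_[p]) : Prop :=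
  ‖τ₀‖ ≤ 1 ∧ ‖σ‖ ≤ 1 ∧ (∀ k : ℚ_[p], ‖k‖ ≤ (p : ℝ)⁻¹ → ‖t k - τ₀‖ ≤ (p : ℝ)⁻¹) ∧
    (∀ k k' : ℚ_[p], ‖k‖ ≤ (p : ℝ)⁻¹ → ‖k'‖ ≤ (p : ℝ)⁻¹ →
      ‖t k - t k' - σ * (k - k')‖ ≤ (p : ℝ)⁻¹ * ‖k - k'‖) ∧
    ∀ k : ℚ_[p], k ≠ 0 → ‖k‖ ≤ (p : ℝ)⁻¹ → FinB k (t k)

/-- the point number `m` of the orbit of `1` runs through the residue class of `c` -/
def St (p : ℕ) [Fact p.Prime] (t : ℚ_[p] → ℚ_[p]) (c : ℚ_[p]) (C : ℝ) (m : ℕ) : Prop :=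
  ∃ k₀ : ℚ_[p], ‖k₀‖ = (p : ℝ)⁻¹ ∧ ∀ k : ℚ_[p], ‖k - k₀‖ ≤ (p : ℝ)⁻¹ / C →
    (∀ i < m, Reg (t k) (Z k (t k) 1 i)) ∧ ‖Z k (t k) 1 m - c‖ ≤ (p : ℝ)⁻¹ ∧
    ∀ k' : ℚ_[p], ‖k' - k₀‖ ≤ (p : ℝ)⁻¹ / C →
      ‖Z k (t k) 1 m - Z k' (t k') 1 m‖ = C * ‖k - k'‖

/-- EST -/
def S_EST : Prop := ∀ (p : ℕ) [Fact p.Prime] (x τ₀ : ℚ_[p]) (n : ℕ), ‖x‖ = 1 → ‖τ₀‖ ≤ 1 →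
  (∀ j < n, ‖V 0 τ₀ x j‖ = 1) → ∀ j ≤ n, ‖Dv τ₀ x j‖ ≤ 1 ∧ ‖Ev τ₀ x j‖ ≤ 1 ∧ ‖V 0 τ₀ x j‖ ≤ 1 ∧
    ∀ τ τ' k k' : ℚ_[p], ‖τ - τ₀‖ ≤ (p : ℝ)⁻¹ → ‖τ' - τ₀‖ ≤ (p : ℝ)⁻¹ → ‖k‖ ≤ (p : ℝ)⁻¹ →
      ‖k'‖ ≤ (p : ℝ)⁻¹ →
      ‖V k τ x j - V k' τ' x j - Dv τ₀ x j * (τ - τ') - Ev τ₀ x j * (k - k')‖ ≤
        (p : ℝ)⁻¹ * max ‖τ - τ'‖ ‖k - k'‖

/-- LNK -/
def S_LNK : Prop := ∀ (p : ℕ) [Fact p.Prime] (k τ x : ℚ_[p]) (n : ℕ), k ≠ 0 → ‖k‖ ≤ (p : ℝ)⁻¹ →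
  ‖τ‖ ≤ 1 → (∀ j < n, ‖V k τ x j‖ = 1 ∧ V k τ x (j + 1) ≠ 0) → ∀ j ≤ n, Z k τ x (2 * j) = V k τ x j ∧
    ∀ i < 2 * j, Reg τ (Z k τ x i)

/-- CUR -/
def S_CUR : Prop := ∀ (p : ℕ) [Fact p.Prime] (τ₀ : ℚ_[p]) (n M : ℕ), n < M → ‖τ₀‖ ≤ 1 →
  (∀ j ≤ M, ‖V 0 τ₀ (-1) j‖ = 1) → ‖V 0 τ₀ (-1) M - V 0 τ₀ (-1) n‖ ≤ (p : ℝ)⁻¹ →
  ‖Dv τ₀ (-1) M - Dv τ₀ (-1) n‖ = 1 → ∃ (σ : ℚ_[p]) (t : ℚ_[p] → ℚ_[p]), Curve p τ₀ σ t ∧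
    ‖t 0 - τ₀‖ ≤ ‖V 0 τ₀ (-1) M - V 0 τ₀ (-1) n‖

/-- B1 -/
def S_B1 : Prop := ∀ (p : ℕ) [Fact p.Prime] (u t : ℚ_[p] → ℚ_[p]) (η b c : ℚ_[p]),
  ‖η‖ = (p : ℝ)⁻¹ → ‖b‖ ≤ 1 → u 0 = η → (∀ k k' : ℚ_[p], ‖k‖ ≤ (p : ℝ)⁻¹ → ‖k'‖ ≤ (p : ℝ)⁻¹ →
    ‖t k‖ ≤ 1 ∧ ‖t k - t k'‖ ≤ ‖k - k'‖ ∧ ‖u k - u k' - b * (k - k')‖ ≤ (p : ℝ)⁻¹ * ‖k - k'‖) →
  ‖c‖ = 1 → ‖c - b‖ = 1 → ∃ k₀ : ℚ_[p], ‖k₀‖ = (p : ℝ)⁻¹ ∧ F k₀ (t k₀) (u k₀) = c ∧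
    ∀ k k' : ℚ_[p], ‖k - k₀‖ ≤ (p : ℝ)⁻¹ * (p : ℝ)⁻¹ → ‖k' - k₀‖ ≤ (p : ℝ)⁻¹ * (p : ℝ)⁻¹ →
      ‖u k‖ = (p : ℝ)⁻¹ ∧ ‖F k (t k) (u k) - F k' (t k') (u k')‖ = ‖k - k'‖ / (p : ℝ)⁻¹

/-- STEP -/
def S_STEP : Prop := ∀ (p : ℕ) [Fact p.Prime] (t : ℚ_[p] → ℚ_[p]) (c : ℚ_[p]) (C : ℝ) (m : ℕ),
  (∀ k k' : ℚ_[p], ‖k‖ ≤ (p : ℝ)⁻¹ → ‖k'‖ ≤ (p : ℝ)⁻¹ → ‖t k‖ ≤ 1 ∧ ‖t k - t k'‖ ≤ ‖k - k'‖) →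
  ‖c‖ = 1 → ‖c ^ 2 - 1‖ = 1 → ‖c ^ 2 + t 0 * c + 1‖ ≤ (p : ℝ)⁻¹ → (p : ℝ) ≤ C →
  St p t c C m → St p t c (C * p) (m + 3)

/-- FIN -/
def S_FIN : Prop := ∀ (p : ℕ) [Fact p.Prime] (t : ℚ_[p] → ℚ_[p]) (c : ℚ_[p]) (C : ℝ) (m : ℕ),
  (∀ k k' : ℚ_[p], ‖k‖ ≤ (p : ℝ)⁻¹ → ‖k'‖ ≤ (p : ℝ)⁻¹ → ‖t k‖ ≤ 1 ∧ ‖t k - t k'‖ ≤ ‖k - k'‖) →
  ‖c‖ = 1 → ‖c ^ 2 - 1‖ = 1 → ‖c ^ 2 + t 0 * c + 1‖ ≤ (p : ℝ)⁻¹ → (p : ℝ) ≤ C →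
  St p t c C m → ∃ k : ℚ_[p], k ≠ 0 ∧ ‖k‖ ≤ (p : ℝ)⁻¹ ∧ (∀ i < m, Reg (t k) (Z k (t k) 1 i)) ∧
    Z k (t k) 1 m ^ 2 + t k * Z k (t k) 1 m + 1 = 0

/-- GD -/
def S_GD : Prop := ∀ (p : ℕ) [Fact p.Prime] (T : ℕ) (k τ : ℚ_[p]), DataF p T k τ → ∀ N ≤ T, Good p 2 N

/-- the conditions on the orbit of `1`, at a point of the parameter space where the orbit of `-1` is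
finite; they depend on `τ` modulo `p ^ 2` only -/
def CondA (p : ℕ) [Fact p.Prime] (n : ℕ) (τ : ℚ_[p]) : Prop :=
  ‖τ‖ ≤ 1 ∧ (∀ j < n + 1, ‖V 0 τ 1 j‖ = 1) ∧ ‖V 0 τ 1 n ^ 2 - 1‖ = 1 ∧ ‖V 0 τ 1 (n + 1)‖ = (p : ℝ)⁻¹

/-- BAS -/
def S_BAS : Prop := ∀ (p : ℕ) [Fact p.Prime] (n : ℕ) (τ₀ σ : ℚ_[p]) (t : ℚ_[p] → ℚ_[p]),
  Curve p τ₀ σ t → CondA p n (t 0) → ∃ (c : ℚ_[p]) (m : ℕ), ‖c‖ = 1 ∧ ‖c ^ 2 - 1‖ = 1 ∧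
    ‖c ^ 2 + t 0 * c + 1‖ ≤ (p : ℝ)⁻¹ ∧ St p t c p m

/-- a certificate for the orbit of `1`: integers modulo `p ^ 2` -/
def CertA (p n : ℕ) (τ : ℤ) (A : ℕ → ℤ) : Prop :=
  A 0 = 1 ∧ (∀ j < n + 1, ((p : ℤ) ^ 2 ∣ A (j + 1) * A j - (A j ^ 2 + τ * A j + 1)) ∧ ¬ (p : ℤ) ∣ A j) ∧
    ¬ (p : ℤ) ∣ A n ^ 2 - 1 ∧ (p : ℤ) ∣ A (n + 1) ∧ ¬ (p : ℤ) ^ 2 ∣ A (n + 1)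

/-- a certificate for the orbit of `-1`: integers modulo `p ^ 2`, and modulo `p` for the derivative -/
def CertB (p n M : ℕ) (τ : ℤ) (B E : ℕ → ℤ) : Prop :=
  n < M ∧ B 0 = -1 ∧ E 0 = 0 ∧
    (∀ j < M, ((p : ℤ) ^ 2 ∣ B (j + 1) * B j - (B j ^ 2 + τ * B j + 1)) ∧
      ((p : ℤ) ∣ E (j + 1) * B j ^ 2 - ((B j ^ 2 - 1) * E j + B j ^ 2))) ∧
    (∀ j ≤ M, ¬ (p : ℤ) ∣ B j) ∧ (p : ℤ) ^ 2 ∣ B M - B n ∧ ¬ (p : ℤ) ∣ E M - E n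

/-- CA -/
def S_CA : Prop := ∀ (p : ℕ) [Fact p.Prime] (n : ℕ) (τ : ℤ) (A : ℕ → ℤ), CertA p n τ A →
  ∀ τ' : ℚ_[p], ‖τ' - τ‖ ≤ (p : ℝ)⁻¹ ^ 2 → CondA p n τ'

/-- CB -/
def S_CB : Prop := ∀ (p : ℕ) [Fact p.Prime] (n M : ℕ) (τ : ℤ) (B E : ℕ → ℤ), CertB p n M τ B E →
  (∀ j ≤ M, ‖V 0 (τ : ℚ_[p]) (-1) j‖ = 1) ∧
    ‖V 0 (τ : ℚ_[p]) (-1) M - V 0 (τ : ℚ_[p]) (-1) n‖ ≤ (p : ℝ)⁻¹ ^ 2 ∧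
    ‖Dv (τ : ℚ_[p]) (-1) M - Dv (τ : ℚ_[p]) (-1) n‖ = 1

end

end Pool.Agent.K6.H14.PE
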