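import Pool.Agent.K6.H14.PE.P_BAS
import Pool.Agent.K6.H14.PE.Num
import Pool.Agent.Y955.PF.Mod

/-!
# Quadratic postcritically finite maps over `ℚ_p`, two parameters: assembly
-/

set_option autoImplicit false

namespace Pool.Agent.K6.H14.PE

open Pool.Agent.Y955.PF

theorem iter (hS : S_STEP) {p : ℕ} [Fact p.Prime] {t : ℚ_[p] → ℚ_[p]} {c : ℚ_[p]} {m : ℕ}
    (ht : ∀ k k' : ℚ_[p], ‖k‖ ≤ (p : ℝ)⁻¹ → ‖k'‖ ≤ (p : ℝ)⁻¹ → ‖t k‖ ≤ 1 ∧ ‖t k - t k'‖ ≤ ‖k - k'‖)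
    (hc : ‖c‖ = 1) (hc2 : ‖c ^ 2 - 1‖ = 1) (hq : ‖c ^ 2 + t 0 * c + 1‖ ≤ (p : ℝ)⁻¹)
    (h : St p t c p m) (N : ℕ) : ∃ C : ℝ, (p : ℝ) ≤ C ∧ St p t c C (m + 3 * N) := by
  induction N with
  | zero => exact ⟨p, le_rfl, h⟩
  | succ N ih =>
    obtain ⟨C, h1, h2⟩ := ih
    refine ⟨C * p, ?_, hS p t c C (m + 3 * N) ht hc hc2 hq h1 h2⟩
    refine h1.trans ?_
    have hC0 : 0 ≤ C := (BAS.p_pos (p := p)).le.trans h1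
    have hp1 : (1 : ℝ) ≤ p := by exact_mod_cast (Fact.out : p.Prime).one_lt.le
    calc C = C * 1 := (mul_one _).symm
      _ ≤ C * p := mul_le_mul_of_nonneg_left hp1 hC0

theorem main (hCUR : S_CUR) (hB : S_BAS) (hS : S_STEP) (hF : S_FIN) (hGD : S_GD) (hCA : S_CA)
    (hCB : S_CB) (p : ℕ) [Fact p.Prime] (h : HasCert p) :
    (RationalPoints p 2 ∩ PCF (AlgebraicClosure ℚ_[p]) 2).Infinite := by
  obtain ⟨n, τ, A, n', M, B, E, hA, hBc⟩ := h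
  obtain ⟨hV, hVM, hD⟩ := hCB p n' M τ B E hBc
  have hr2 : (p : ℝ)⁻¹ ^ 2 ≤ (p : ℝ)⁻¹ := by
    rw [sq]
    calc (p : ℝ)⁻¹ * (p : ℝ)⁻¹ ≤ (p : ℝ)⁻¹ * 1 :=
        mul_le_mul_of_nonneg_left (BAS.r_lt (p := p)).le BAS.r_pos.le
      _ = (p : ℝ)⁻¹ := mul_one _
  obtain ⟨σ, t, hcur, ht0⟩ := hCUR p (τ : ℚ_[p]) n' M hBc.1 (Padic.norm_int_le_one τ) hV
    (hVM.trans hr2) hD
  have hcond := hCA p n τ A hA (t 0) (ht0.trans hVM)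
  obtain ⟨c, m, hc, hc2, hq, hSt⟩ := hB p n (τ : ℚ_[p]) σ t hcur hcond
  have hlip := BAS.curve_lip hcur
  refine mod_inf p 2 le_rfl fun N => ?_
  obtain ⟨C, h1, h2⟩ := iter hS hlip hc hc2 hq hSt N
  obtain ⟨k, hk0, hk, hreg, hpole⟩ := hF p t c C (m + 3 * N) hlip hc hc2 hq h1 h2
  exact hGD p (m + 3 * N) k (t k) ⟨hk0, hreg, hpole, hcur.2.2.2.2 k hk0 hk⟩ N (by omega)

end Pool.Agent.K6.H14.PE
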